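import Pool.Agent.H29.ENR.Stmts5

/-!
Board enr, row Q3H: quadratic residues in a field with `|F| ≡ 3 mod 8`.
-/

set_option autoImplicit false

namespace Pool.ENR

theorem q3h_mul {F : Type} [Field F] [Fintype F] {a b : F} (ha : a ≠ 0) (hb : b ≠ 0) :
    IsSquare (a * b) ↔ (IsSquare a ↔ IsSquare b) := by
  classical
  by_cases h1 : IsSquare a
  · by_cases h2 : IsSquare b
    · exact ⟨fun _ => ⟨fun _ => h2, fun _ => h1⟩, fun _ => h1.mul h2⟩
    · refine ⟨fun h => ?_, fun h => absurd (h.1 h1) h2⟩
      exfalso
      apply h2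
      have h3 : b = (a * b) / a := by field_simp
      rw [h3]
      exact h.div h1
  · by_cases h2 : IsSquare b
    · refine ⟨fun h => ?_, fun h => absurd (h.2 h2) h1⟩
      exfalso
      apply h1
      have h3 : a = (a * b) / b := by field_simp
      rw [h3]
      exact h.div h2
    · refine ⟨fun _ => ⟨fun h => absurd h h1, fun h => absurd h h2⟩, fun _ => ?_⟩
      have hF : ringChar F ≠ 2 := by
        intro hF
        exact h1 (FiniteField.isSquare_of_char_two hF a)
      rw [← quadraticChar_neg_one_iff_not_isSquare] at h1 h2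
      rw [← quadraticChar_one_iff_isSquare (mul_ne_zero ha hb), map_mul, h1, h2]
      norm_num

theorem q3h_prop (A B C : Prop) (r1 : ¬ A → ¬ (B ↔ C)) (r2 : ¬ B → ¬ (C ↔ A))
    (r3 : ¬ C → ¬ (A ↔ B)) (s1 : ¬ ¬ A → ¬ (¬ C ↔ ¬ B)) (s2 : ¬ ¬ B → ¬ (¬ A ↔ ¬ C))
    (s3 : ¬ ¬ C → ¬ (¬ B ↔ ¬ A)) : False := by
  by_cases hA : A <;> by_cases hB : B <;> by_cases hC : C <;> simp_all

theorem q3h_thm : Q3HStmt := by
  intro F _ _ hF hF11
  classical
  let _ : Fintype F := Fintype.ofFinite F
  rw [Nat.card_eq_fintype_card] at hF hF11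
  have hm1 : ¬ IsSquare (-1 : F) := by
    rw [FiniteField.isSquare_neg_one_iff]
    omega
  have h2 : ¬ IsSquare (2 : F) := by
    rw [FiniteField.isSquare_two_iff]
    omega
  have h20 : (2 : F) ≠ 0 := fun h => h2 (by rw [h]; exact ⟨0, by simp⟩)
  have hneg : ∀ x : F, x ≠ 0 → (IsSquare (-x) ↔ ¬ IsSquare x) := by
    intro x hx
    have h3 : -x = -1 * x := by ring
    rw [h3, q3h_mul (by simp) hx]
    tauto
  by_cases h30 : (3 : F) = 0
  · -- characteristic three
    by_contra hno
    have hw : ∃ w : F, w ≠ 0 ∧ w ≠ 1 ∧ w ≠ 2 := by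
      by_contra hw
      have hsub : (Finset.univ : Finset F) ⊆ {0, 1, 2} := by
        intro w _
        by_contra h
        apply hw
        refine ⟨w, ?_, ?_, ?_⟩ <;> rintro rfl <;> simp at h
      have h4 := Finset.card_le_card hsub
      rw [Finset.card_univ] at h4
      have h5 : ({0, 1, 2} : Finset F).card ≤ 3 := Finset.card_le_three
      omega
    obtain ⟨w, hw0, hw1, hw2⟩ := hw
    have rule : ∀ x : F, x ≠ 0 → x + 1 ≠ 0 → x + 2 ≠ 0 → ¬ IsSquare x →
        ¬ (IsSquare (x + 1) ↔ IsSquare (x + 2)) := by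
      intro x hx0 hx1 hx2 hx hiff
      obtain ⟨e, he⟩ := (q3h_mul hx1 hx2).2 hiff
      apply hno
      refine ⟨x + 1, e, ?_, ?_, ?_⟩
      · have h4 : x + 1 + 2 = x := by linear_combination h30
        rw [h4]
        exact hx
      · linear_combination he - (x + 2) * h30
      · rintro rfl
        rw [mul_zero] at he
        exact mul_ne_zero hx1 hx2 he
    have a1 : w + 1 ≠ 0 := fun h => hw2 (by linear_combination h - h30)
    have a2 : w + 2 ≠ 0 := fun h => hw1 (by linear_combination h - h30)
    have e1 : w + 1 + 1 = w + 2 := by ring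
    have e2 : w + 1 + 2 = w := by linear_combination h30
    have e3 : w + 2 + 1 = w := by linear_combination h30
    have e4 : w + 2 + 2 = w + 1 := by linear_combination h30
    have r1 := rule w hw0 a1 a2
    have r2 := rule (w + 1) a1 (by rw [e1]; exact a2) (by rw [e2]; exact hw0)
    have r3 := rule (w + 2) a2 (by rw [e3]; exact hw0) (by rw [e4]; exact a1)
    rw [e1, e2] at r2
    rw [e3, e4] at r3
    have f1 : -w + 1 = -(w + 2) := by linear_combination h30
    have f2 : -w + 2 = -(w + 1) := by linear_combination h30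
    have f3 : -(w + 1) + 1 = -w := by ring
    have f4 : -(w + 1) + 2 = -(w + 2) := by linear_combination h30
    have f5 : -(w + 2) + 1 = -(w + 1) := by ring
    have f6 : -(w + 2) + 2 = -w := by ring
    have s1 := rule (-w) (neg_ne_zero.2 hw0) (by rw [f1]; exact neg_ne_zero.2 a2)
      (by rw [f2]; exact neg_ne_zero.2 a1)
    have s2 := rule (-(w + 1)) (neg_ne_zero.2 a1) (by rw [f3]; exact neg_ne_zero.2 hw0)
      (by rw [f4]; exact neg_ne_zero.2 a2)
    have s3 := rule (-(w + 2)) (neg_ne_zero.2 a2) (by rw [f5]; exact neg_ne_zero.2 a1)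
      (by rw [f6]; exact neg_ne_zero.2 hw0)
    rw [f1, f2, hneg w hw0, hneg (w + 1) a1, hneg (w + 2) a2] at s1
    rw [f3, f4, hneg w hw0, hneg (w + 1) a1, hneg (w + 2) a2] at s2
    rw [f5, f6, hneg w hw0, hneg (w + 1) a1, hneg (w + 2) a2] at s3
    exact q3h_prop _ _ _ r1 r2 r3 s1 s2 s3
  · by_cases h3 : IsSquare (-3 : F)
    · obtain ⟨e, he⟩ := h3
      refine ⟨0, e, by rw [zero_add]; exact h2, ?_, ?_⟩
      · linear_combination he
      · rintro rfl
        apply h30
        linear_combination -he
    · have h3s : IsSquare (3 : F) := by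
        by_contra h
        exact h3 ((hneg 3 h30).2 h)
      obtain ⟨s, hs⟩ := h3s
      have hs0 : s ≠ 0 := by
        rintro rfl
        apply h30
        rw [hs, mul_zero]
      have key : ∀ v : F, v * v = 3 → ¬ IsSquare (v + 2) := by
        intro v hv h
        have hv1 : 1 + v ≠ 0 := by
          intro h4
          apply h20
          linear_combination (v - 1) * h4 - hv
        apply h2
        have h5 : (2 : F) = (1 + v) * (1 + v) / (v + 2) := by
          have h6 : v + 2 ≠ 0 := by
            intro h7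
            have h8 : (1 + v) * (1 + v) = 0 := by linear_combination hv + 2 * h7
            exact hv1 (mul_self_eq_zero.1 h8)
          field_simp
          linear_combination -hv
        rw [h5]
        exact (IsSquare.mul_self (1 + v)).div h
      have h2s : (2 * s) ≠ 0 := mul_ne_zero h20 hs0
      by_cases h4 : IsSquare (2 * s)
      · obtain ⟨e, he⟩ := h4
        refine ⟨-s, e, key (-s) (by linear_combination -hs), ?_, ?_⟩
        · linear_combination he - hs
        · rintro rfl
          exact h2s (by rw [he, mul_zero])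
      · obtain ⟨e, he⟩ := (hneg _ h2s).2 h4
        refine ⟨s, e, key s hs.symm, ?_, ?_⟩
        · linear_combination he - hs
        · rintro rfl
          apply h2s
          linear_combination -he

end Pool.ENR
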