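import Pool.Agent.H29.ENR.Stmts11

/-!
# Board enr (MP_d15c96_al), row Q7A: automorphisms of 2-power order of `PSL(2,q)`, `q = 3 mod 4`,
are conjugations by matrices (after `Pool/Agent/H70/ENR/Q3A.lean`)
-/

set_option autoImplicit false

namespace Pool.ENR

open Pool.Agent.H81.ENG Pool.Agent.H55.NEU

namespace Q7Aaux

variable {F : Type} [Field F]

/-- the conjugate of an element of determinant one -/
theorem ex_conj (M : Matrix (Fin 2) (Fin 2) F) (hM : M.det ≠ 0) (X : SL2 F) :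
    ∃ X' : SL2 F, (X' : Matrix (Fin 2) (Fin 2) F) * M = M * (X : Matrix (Fin 2) (Fin 2) F) := by
  have hu : IsUnit M.det := isUnit_iff_ne_zero.2 hM
  refine ⟨⟨M * (X : Matrix (Fin 2) (Fin 2) F) * M⁻¹, ?_⟩, ?_⟩
  · rw [Matrix.det_mul, Matrix.det_mul, X.2, mul_one, ← Matrix.det_mul,
      Matrix.mul_nonsing_inv _ hu, Matrix.det_one]
  · change M * (X : Matrix (Fin 2) (Fin 2) F) * M⁻¹ * M = M * (X : Matrix (Fin 2) (Fin 2) F)
    rw [Matrix.nonsing_inv_mul_cancel_right _ _ hu]

theorem cm_mul {M M' : Matrix (Fin 2) (Fin 2) F} {σ τ : MulAut (PS F)} (hM' : M'.det ≠ 0)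
    (h : CM F M σ) (h' : CM F M' τ) : CM F (M * M') (σ * τ) := by
  intro X X' hX
  obtain ⟨Y, hY⟩ := ex_conj M' hM' X
  have hu : IsUnit M'.det := isUnit_iff_ne_zero.2 hM'
  rw [MulAut.mul_apply, h' X Y hY]
  apply h
  have h1 : (X' : Matrix (Fin 2) (Fin 2) F) * M * M' = M * (Y : Matrix (Fin 2) (Fin 2) F) * M' := by
    rw [mul_assoc, hX, mul_assoc, mul_assoc, hY]
  have h2 : (X' : Matrix (Fin 2) (Fin 2) F) * M * M' * M'⁻¹ =
      M * (Y : Matrix (Fin 2) (Fin 2) F) * M' * M'⁻¹ := by rw [h1]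
  rwa [Matrix.mul_nonsing_inv_cancel_right _ _ hu, Matrix.mul_nonsing_inv_cancel_right _ _ hu]
    at h2

/-- a group of field automorphisms of order `2 ^ k` and `|F| = 3 mod 4`: `k = 0` -/
theorem no_two [Finite F] (hq : Nat.card F % 4 = 3) (G : Subgroup (F ≃+* F)) {k : ℕ}
    (hk : Nat.card G = 2 ^ k) : k = 0 := by
  classical
  let G' : Subgroup (RingAut F) := G
  have hk' : Nat.card G' = 2 ^ k := hk
  have hfinA : Finite (RingAut F) :=
    Finite.of_injective (fun ψ : RingAut F => (fun x => ψ x)) (fun a b h => by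
      ext x; exact congrFun h x)
  have : Fintype G' := Fintype.ofFinite G'
  let F0 := FixedPoints.subfield G' F
  have hfr : Module.finrank F0 F = Fintype.card G' := FixedPoints.finrank_eq_card G' F
  have : Fintype F := Fintype.ofFinite F
  have : Fintype F0 := Fintype.ofFinite F0
  have hcard : Nat.card F = Nat.card F0 ^ 2 ^ k := by
    rw [Nat.card_eq_fintype_card, Nat.card_eq_fintype_card, Module.card_eq_pow_finrank (K := F0),
      hfr, ← hk', Nat.card_eq_fintype_card]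
  by_contra hk0
  obtain ⟨j, rfl⟩ := Nat.exists_eq_succ_of_ne_zero hk0
  rw [pow_succ, pow_mul, pow_two] at hcard
  rw [hcard, Nat.mul_mod] at hq
  have h4 : (Nat.card F0 ^ 2 ^ j) % 4 < 4 := Nat.mod_lt _ (by norm_num)
  generalize (Nat.card F0 ^ 2 ^ j) % 4 = a at hq h4
  interval_cases a <;> simp at hq

end Q7Aaux

open Q7Aaux in
theorem q7a_thm : Q7AStmt := by
  intro F _ _ hq σ N hσ
  -- no field part
  have hfld : fld σ = 1 := by
    have h1 : (fld σ) ^ (2 ^ N) = 1 := by rw [← map_pow, hσ, map_one]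
    have h2 : orderOf (fld σ) ∣ 2 ^ N := orderOf_dvd_of_pow_eq_one h1
    obtain ⟨k, -, hk⟩ := (Nat.dvd_prime_pow Nat.prime_two).1 h2
    have h3 : Nat.card (Subgroup.zpowers (fld σ)) = 2 ^ k := by rw [Nat.card_zpowers, hk]
    have h5 : k = 0 := no_two hq (Subgroup.zpowers (fld σ)) h3
    rw [h5, pow_zero] at hk
    exact orderOf_eq_one_iff.1 hk
  obtain ⟨g, c, hg⟩ := fld_spec σ
  rw [hfld] at hg
  obtain ⟨G, rfl⟩ := pr_surj g
  have hdet : (!![(c : F), 0; 0, 1] : Matrix (Fin 2) (Fin 2) F).det = c := by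
    rw [Matrix.det_fin_two_of]; ring
  refine ⟨(G : Matrix (Fin 2) (Fin 2) F) * !![(c : F), 0; 0, 1], ?_, ?_⟩
  · rw [Matrix.det_mul, G.2, one_mul, hdet]
    exact c.ne_zero
  · rw [hg]
    refine cm_mul (by rw [hdet]; exact c.ne_zero) ?_ ?_
    · intro X X' hX
      change pr G * pr X * (pr G)⁻¹ = pr X'
      have h1 : X' * G = G * X := Subtype.ext hX
      rw [← map_inv, ← map_mul, ← map_mul, ← h1, mul_inv_cancel_right]
    · intro X X' hX
      rw [ee_pr]
      congr 1
      have hcc : (c : F) * ((c⁻¹ : Fˣ) : F) = 1 := Units.mul_inv c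
      have e00 := congrFun (congrFun hX 0) 0
      have e01 := congrFun (congrFun hX 0) 1
      have e10 := congrFun (congrFun hX 1) 0
      have e11 := congrFun (congrFun hX 1) 1
      simp only [Matrix.mul_apply, Fin.sum_univ_two] at e00 e01 e10 e11
      change X' 0 0 * c + X' 0 1 * 0 = c * X 0 0 + 0 * X 1 0 at e00
      change X' 0 0 * 0 + X' 0 1 * 1 = c * X 0 1 + 0 * X 1 1 at e01
      change X' 1 0 * c + X' 1 1 * 0 = 0 * X 0 0 + 1 * X 1 0 at e10
      change X' 1 0 * 0 + X' 1 1 * 1 = 0 * X 0 1 + 1 * X 1 1 at e11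
      apply sl_ext
      · change X 0 0 = X' 0 0
        apply mul_left_cancel₀ c.ne_zero
        linear_combination -e00
      · change (c : F) * X 0 1 = X' 0 1
        linear_combination -e01
      · change ((c⁻¹ : Fˣ) : F) * X 1 0 = X' 1 0
        linear_combination (-((c⁻¹ : Fˣ) : F)) * e10 + X' 1 0 * hcc
      · change X 1 1 = X' 1 1
        linear_combination -e11

end Pool.ENR
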